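import Pool.Agent.K1H70.KG.Stm

set_option autoImplicit false

/-! # Equivariance of the determinant -/

namespace Pool.Agent.K1H26.KG

open MvPolynomial Pool.Agent.K1H70.KR Pool.Agent.K1H70.KG

section

variable {R : Type} [CommRing R] {α ρ : Type} {m : ℕ}

theorem wv_nil (x : V α ρ m → R) (l : ρ) : wv x [] l = mv x l := rfl

theorem wv_cons (x : V α ρ m → R) (b : α) (w : List α) (l : ρ) :
    wv x (b :: w) l = (mA x b).mulVec (wv x w l) := rfl

theorem mA_act (G Gi : Matrix (Fin m) (Fin m) R) (u : α → R) (z : ρ → R) (x : V α ρ m → R)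
    (b : α) : mA (act G Gi u z x) b = u b • (G * mA x b * Gi) := by
  ext a c
  rfl

theorem mv_act (G Gi : Matrix (Fin m) (Fin m) R) (u : α → R) (z : ρ → R) (x : V α ρ m → R)
    (l : ρ) : mv (act G Gi u z x) l = z l • G.mulVec (mv x l) := by
  ext a
  rfl

theorem wv_act (G Gi : Matrix (Fin m) (Fin m) R) (u : α → R) (z : ρ → R) (x : V α ρ m → R)
    (h : Gi * G = 1) (w : List α) (l : ρ) :
    wv (act G Gi u z x) w l = ((w.map u).prod * z l) • G.mulVec (wv x w l) := by
  induction w with
  | nil => rw [wv_nil, wv_nil, mv_act, List.map_nil, List.prod_nil, one_mul]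
  | cons b w ih =>
    rw [wv_cons, wv_cons, ih, mA_act, Matrix.mulVec_smul, Matrix.smul_mulVec, Matrix.mulVec_mulVec,
      Matrix.mul_assoc (G * mA x b), h, Matrix.mul_one, ← Matrix.mulVec_mulVec, smul_smul,
      List.map_cons, List.prod_cons]
    congr 1
    ring

theorem wv_scale [DecidableEq ρ] (x y : V α ρ m → R) (j : ρ) (c : R) (h1 : ∀ b, mA y b = mA x b)
    (h2 : mv y j = c • mv x j) (h3 : ∀ l, l ≠ j → mv y l = mv x l) (w : List α) (l : ρ) :
    wv y w l = (if l = j then c else 1) • wv x w l := by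
  induction w with
  | nil =>
    rw [wv_nil, wv_nil]
    by_cases h : l = j
    · rw [if_pos h, h, h2]
    · rw [if_neg h, h3 l h, one_smul]
  | cons b w ih => rw [wv_cons, wv_cons, ih, h1, Matrix.mulVec_smul]

end

theorem t_ACT : S_ACT := by
  intro R _ α ρ m ω d e
  classical
  refine ⟨fun G Gi u z x h => ?_, fun x y j c h1 h2 h3 => ?_⟩
  · have h1 : (Matrix.of fun k a : Fin m =>
        wv (act G Gi u z x) (e.symm k).1.1 (e.symm k).1.2 a) =
        Matrix.of fun k a : Fin m => (fun k => ((e.symm k).1.1.map u).prod * z (e.symm k).1.2) k *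
          ((Matrix.of fun k a : Fin m => wv x (e.symm k).1.1 (e.symm k).1.2 a) * G.transpose) k a := by
      ext k a
      rw [Matrix.of_apply, Matrix.of_apply, wv_act G Gi u z x h, Pi.smul_apply, smul_eq_mul]
      congr 1
      rw [Matrix.mul_apply]
      change ∑ b, G a b * _ = _
      exact Finset.sum_congr rfl fun b _ => mul_comm _ _
    unfold fdet chi
    rw [h1, Matrix.det_mul_column, Matrix.det_mul, Matrix.det_transpose]
    ring
  · have h4 : (Matrix.of fun k a : Fin m => wv y (e.symm k).1.1 (e.symm k).1.2 a) =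
        Matrix.of fun k a : Fin m => (fun k => if (e.symm k).1.2 = j then c else 1) k *
          (Matrix.of fun k a : Fin m => wv x (e.symm k).1.1 (e.symm k).1.2 a) k a := by
      ext k a
      rw [Matrix.of_apply, Matrix.of_apply, wv_scale x y j c h1 h2 h3]
      rfl
    unfold fdet
    rw [h4, Matrix.det_mul_column]
    congr 1
    rw [Finset.prod_ite, Finset.prod_const, Finset.prod_const_one, mul_one]
    congr 1
    unfold nw
    rw [← Fintype.card_subtype, ← Nat.card_eq_fintype_card]
    refine Nat.card_congr ⟨fun k => ⟨(e.symm k.1).1.1, by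
        have h5 := (e.symm k.1).2
        rwa [k.2] at h5⟩, fun w => ⟨e ⟨(w.1, j), w.2⟩, by simp⟩, fun k => ?_, fun w => ?_⟩
    · apply Subtype.ext
      have h5 : (⟨((e.symm k.1).1.1, j), by
          have h5 := (e.symm k.1).2
          rwa [k.2] at h5⟩ : T ω d) = e.symm k.1 := by
        apply Subtype.ext
        exact Prod.ext rfl k.2.symm
      change e _ = k.1
      rw [h5, Equiv.apply_symm_apply]
    · apply Subtype.ext
      simp

end Pool.Agent.K1H26.KG
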